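import Pool.Agent.Helper92.LV.Stmts

/-!
# Module CX2: archimedean places, final form, two sided
-/

open Filter Topology NumberField

namespace Pool.Agent.Helper92.LV

open Pool.Agent.Helper42.LS Pool.Agent.Helper42.LK

/-- affine change of variables `X = μ Z + e`, `Y = ν W` -/
private lemma cx2_norm (a b e μ ν : ℂ) (X Y : ℕ → ℂ) (h : GSeq (0 : ℂ) a b X Y) (hμ : μ ≠ 0)
    (hν : ν ≠ 0) (hνμ : ν ^ 2 = μ ^ 3) (he : e ^ 3 + a * e + b = 0) (hμe : μ ^ 2 = 3 * e ^ 2 + a) :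
    GSeq (3 * e / μ) 1 0 (fun k => (X k - e) / μ) (fun k => Y k / ν) := by
  have key : ∀ lam : ℂ, (lam * (μ / ν)) ^ 2 = lam ^ 2 / μ := by
    intro lam
    rw [mul_pow, div_pow, hνμ]
    field_simp
  have sl1 : ∀ k l : ℕ, X k ≠ X l → (Y k / ν - Y l / ν) / ((X k - e) / μ - (X l - e) / μ) =
      ((Y k - Y l) / (X k - X l)) * (μ / ν) := by
    intro k l hkl
    have h1 : X k - X l ≠ 0 := sub_ne_zero.mpr hkl
    have h2 : (X k - e) / μ - (X l - e) / μ = (X k - X l) / μ := by ring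
    rw [h2]
    field_simp
  have sl2 : ∀ k l : ℕ, X k ≠ X l → (Y k / ν + Y l / ν) / ((X k - e) / μ - (X l - e) / μ) =
      ((Y k + Y l) / (X k - X l)) * (μ / ν) := by
    intro k l hkl
    have h1 : X k - X l ≠ 0 := sub_ne_zero.mpr hkl
    have h2 : (X k - e) / μ - (X l - e) / μ = (X k - X l) / μ := by ring
    rw [h2]
    field_simp
  have sl3 : ∀ k : ℕ, Y k ≠ 0 → (3 * ((X k - e) / μ) ^ 2 + 2 * (3 * e / μ) * ((X k - e) / μ) + 1) /
      (2 * (Y k / ν)) = ((3 * X k ^ 2 + 2 * 0 * X k + a) / (2 * Y k)) * (μ / ν) := by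
    intro k hk
    have h2 : 3 * ((X k - e) / μ) ^ 2 + 2 * (3 * e / μ) * ((X k - e) / μ) + 1 =
        (3 * X k ^ 2 + a) / μ ^ 2 := by
      field_simp
      linear_combination hμe
    rw [h2]
    have h3 : μ / ν = ν / μ ^ 2 := by
      field_simp
      linear_combination -hνμ
    rw [h3]
    field_simp
    ring
  constructor
  · intro k hk
    have h1 := h.curve k hk
    rw [div_pow, hνμ, h1]
    field_simp
    linear_combination he - (X k - e) * hμe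
  · intro k hk
    exact div_ne_zero (h.yne k hk) hν
  · intro k l hl hk heq
    apply h.xne k l hl hk
    change (X k - e) / μ = (X l - e) / μ at heq
    have h2 := (div_left_inj' hμ).mp heq
    linear_combination h2
  · intro k hk
    rw [sl3 k (h.yne k hk), key, h.dblx k hk]
    field_simp
    ring
  · intro k hk
    rw [sl3 k (h.yne k hk), h.dbly k hk]
    field_simp
    ring
  · intro k l hl hk
    rw [sl1 k l (h.xne k l hl hk), key, h.addx k l hl hk]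
    field_simp
    ring
  · intro k l hl hk
    rw [sl1 k l (h.xne k l hl hk), h.addy k l hl hk]
    field_simp
    ring
  · intro k l hl hk
    rw [sl2 k l (h.xne k l hl hk), key, h.subx k l hl hk]
    field_simp
    ring
  · intro k l hl hk
    rw [sl2 k l (h.xne k l hl hk), h.suby k l hl hk]
    field_simp
    ring

private lemma cx2_B2 (t : ℝ) : |B2 t| ≤ 1 / 6 := by
  unfold B2
  have h1 := Int.fract_nonneg t
  have h2 := (Int.fract_lt_one t).le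
  rw [abs_le]
  constructor
  · nlinarith [sq_nonneg (Int.fract t - 1 / 2)]
  · nlinarith

private lemma cx2_B20 : B2 0 = 1 / 6 := by
  unfold B2
  simp

private lemma cx2_j (a e μ κ D : ℂ) (hμ : μ ≠ 0) (hμe : μ ^ 2 = 3 * e ^ 2 + a)
    (hκ : ‖κ‖ ≤ 1 / 100) (hκ0 : κ ≠ 0) (he : 3 * e = -(2 + κ) * μ)
    (hD : D = -(κ * (4 + κ)) * μ ^ 6) :
    1 / ‖κ‖ ≤ ‖6912 * a ^ 3 / D‖ ∧ ‖6912 * a ^ 3 / D‖ ≤ 100 / ‖κ‖ := by
  have hκn := norm_nonneg κ
  have h1 : 9 * e ^ 2 = (2 + κ) ^ 2 * μ ^ 2 := by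
    linear_combination (3 * e - (2 + κ) * μ) * he
  have h2 : a = -(μ ^ 2 * (1 + 4 * κ + κ ^ 2)) / 3 := by
    linear_combination (-1) * hμe - h1 / 3
  have h4l : 399 / 100 ≤ ‖4 + κ‖ := by
    have : ‖(4 : ℂ)‖ ≤ ‖4 + κ‖ + ‖κ‖ := by
      have := norm_sub_le (4 + κ) κ
      simpa using this
    have h4 : ‖(4 : ℂ)‖ = 4 := by simp
    linarith
  have h4u : ‖4 + κ‖ ≤ 401 / 100 := by
    have := norm_add_le (4 : ℂ) κ
    have h4 : ‖(4 : ℂ)‖ = 4 := by simp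
    linarith
  have h40 : 4 + κ ≠ 0 := by
    intro h0
    rw [h0, norm_zero] at h4l
    linarith
  have h3 : 6912 * a ^ 3 / D = 256 * (1 + 4 * κ + κ ^ 2) ^ 3 / (κ * (4 + κ)) := by
    rw [hD, h2]
    field_simp
    ring
  have hs : ‖4 * κ + κ ^ 2‖ ≤ 5 / 100 := by
    have := norm_add_le (4 * κ) (κ ^ 2)
    rw [norm_mul, norm_pow] at this
    have h4 : ‖(4 : ℂ)‖ = 4 := by simp
    rw [h4] at this
    nlinarith
  have h5 : 95 / 100 ≤ ‖1 + 4 * κ + κ ^ 2‖ := by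
    have := norm_sub_le (1 + 4 * κ + κ ^ 2) (4 * κ + κ ^ 2)
    have e1 : 1 + 4 * κ + κ ^ 2 - (4 * κ + κ ^ 2) = 1 := by ring
    rw [e1, norm_one] at this
    linarith
  have h6 : ‖1 + 4 * κ + κ ^ 2‖ ≤ 105 / 100 := by
    have := norm_add_le (1 : ℂ) (4 * κ + κ ^ 2)
    rw [← add_assoc, norm_one] at this
    linarith
  have h7 : (95 / 100 : ℝ) ^ 3 ≤ ‖1 + 4 * κ + κ ^ 2‖ ^ 3 := pow_le_pow_left₀ (by norm_num) h5 3
  have h8 : ‖1 + 4 * κ + κ ^ 2‖ ^ 3 ≤ (105 / 100 : ℝ) ^ 3 := pow_le_pow_left₀ (norm_nonneg _) h6 3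
  have hκa : 0 < ‖κ‖ := norm_pos_iff.2 hκ0
  have h256 : ‖(256 : ℂ)‖ = 256 := by simp
  rw [h3, norm_div, norm_mul, norm_mul, norm_pow, h256]
  have hp : 0 < ‖κ‖ * ‖4 + κ‖ := mul_pos hκa (by linarith)
  constructor
  · rw [div_le_div_iff₀ hκa hp]
    have a1 : ‖κ‖ * ‖4 + κ‖ ≤ ‖κ‖ * 5 := mul_le_mul_of_nonneg_left (by linarith) hκa.le
    have a2 : ‖κ‖ * 5 ≤ ‖κ‖ * (256 * ‖1 + 4 * κ + κ ^ 2‖ ^ 3) :=
      mul_le_mul_of_nonneg_left (by linarith) hκa.le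
    linarith
  · rw [div_le_div_iff₀ hp hκa]
    have a1 : ‖κ‖ * 3 ≤ ‖κ‖ * ‖4 + κ‖ := mul_le_mul_of_nonneg_left (by linarith) hκa.le
    have a2 : ‖κ‖ * (256 * ‖1 + 4 * κ + κ ^ 2‖ ^ 3) ≤ ‖κ‖ * 300 :=
      mul_le_mul_of_nonneg_left (by linarith) hκa.le
    linarith

/-- comparison of the main terms -/
private lemma cx2_main (a e μ κ D : ℂ) (hμ : μ ≠ 0) (hμe : μ ^ 2 = 3 * e ^ 2 + a)
    (hκ : ‖κ‖ ≤ 1 / 100) (hκ0 : κ ≠ 0) (he : 3 * e = -(2 + κ) * μ)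
    (hD : D = -(κ * (4 + κ)) * μ ^ 6) (t : ℝ) :
    |Real.log ‖μ‖ + (-Real.log ‖κ‖) * (B2 t - 1 / 6) -
      (1 / 6 * Real.log ‖D‖ + max 0 (Real.log ‖6912 * a ^ 3 / D‖) * B2 t)| ≤
      Real.log 5 + Real.log 100 := by
  obtain ⟨j1, j2⟩ := cx2_j a e μ κ D hμ hμe hκ hκ0 he hD
  have hκa : 0 < ‖κ‖ := norm_pos_iff.2 hκ0
  have hμa : 0 < ‖μ‖ := norm_pos_iff.2 hμ
  have hn4 : ‖(4 : ℂ)‖ = 4 := by simp
  have h4u : ‖4 + κ‖ ≤ 5 := by
    have := norm_add_le (4 : ℂ) κ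
    linarith
  have h41 : 1 ≤ ‖4 + κ‖ := by
    have : ‖(4 : ℂ)‖ ≤ ‖4 + κ‖ + ‖κ‖ := by
      have := norm_sub_le (4 + κ) κ
      simpa using this
    linarith
  have h4 : 0 < ‖4 + κ‖ := by linarith
  have hlD : Real.log ‖D‖ = Real.log ‖κ‖ + Real.log ‖4 + κ‖ + 6 * Real.log ‖μ‖ := by
    rw [hD, norm_mul, norm_neg, norm_mul, norm_pow,
      Real.log_mul (by positivity) (by positivity), Real.log_mul (by positivity) (by positivity),
      Real.log_pow]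
    norm_num
  have l5 : Real.log ‖4 + κ‖ ≤ Real.log 5 := Real.log_le_log h4 h4u
  have l1 : 0 ≤ Real.log ‖4 + κ‖ := Real.log_nonneg h41
  have l5' : 0 ≤ Real.log 5 := Real.log_nonneg (by norm_num)
  have l100 : 0 ≤ Real.log 100 := Real.log_nonneg (by norm_num)
  have lk : Real.log ‖κ‖ ≤ 0 := Real.log_nonpos hκa.le (by linarith)
  have m1 : -Real.log ‖κ‖ ≤ Real.log ‖6912 * a ^ 3 / D‖ := by
    have := Real.log_le_log (by positivity) j1
    rw [one_div, Real.log_inv] at this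
    exact this
  have m2 : Real.log ‖6912 * a ^ 3 / D‖ ≤ Real.log 100 - Real.log ‖κ‖ := by
    have h0 : 0 < ‖6912 * a ^ 3 / D‖ := lt_of_lt_of_le (by positivity) j1
    have := Real.log_le_log h0 j2
    rw [Real.log_div (by norm_num) hκa.ne'] at this
    exact this
  have m3 : max 0 (Real.log ‖6912 * a ^ 3 / D‖) = Real.log ‖6912 * a ^ 3 / D‖ :=
    max_eq_right (by linarith)
  rw [m3, hlD]
  have hb := cx2_B2 t
  have m4 : |(Real.log ‖6912 * a ^ 3 / D‖ + Real.log ‖κ‖) * B2 t| ≤ Real.log 100 * (1 / 6) := by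
    rw [abs_mul]
    apply mul_le_mul _ hb (abs_nonneg _) l100
    rw [abs_of_nonneg (by linarith)]
    linarith
  rw [abs_le] at m4 ⊢
  constructor <;> linarith [m4.1, m4.2]

private lemma cx2_up (x Z e μ : ℂ) (hμ : μ ≠ 0) (hZ : Z = (x - e) / μ) :
    Real.log (max ‖Z‖ 1) ≤
      Real.log (max ‖x‖ 1) + Real.log (max ((1 + ‖e‖) / ‖μ‖) 1) := by
  have hμa : 0 < ‖μ‖ := norm_pos_iff.2 hμ
  have h1 : 0 < max ‖x‖ 1 := lt_of_lt_of_le one_pos (le_max_right _ _)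
  have h2 : 0 < max ((1 + ‖e‖) / ‖μ‖) 1 := lt_of_lt_of_le one_pos (le_max_right _ _)
  have h3 : max ‖Z‖ 1 ≤ max ‖x‖ 1 * max ((1 + ‖e‖) / ‖μ‖) 1 := by
    apply max_le
    · rw [hZ, norm_div]
      have h4 : ‖x - e‖ ≤ max ‖x‖ 1 * (1 + ‖e‖) := by
        have j1 : ‖x‖ ≤ max ‖x‖ 1 := le_max_left _ _
        have j2 : ‖e‖ * 1 ≤ ‖e‖ * max ‖x‖ 1 :=
          mul_le_mul_of_nonneg_left (le_max_right _ _) (norm_nonneg e)
        linarith [norm_sub_le x e]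
      calc ‖x - e‖ / ‖μ‖ ≤ max ‖x‖ 1 * (1 + ‖e‖) / ‖μ‖ := div_le_div_of_nonneg_right h4 hμa.le
        _ = max ‖x‖ 1 * ((1 + ‖e‖) / ‖μ‖) := by ring
        _ ≤ _ := mul_le_mul_of_nonneg_left (le_max_left _ _) h1.le
    · calc (1 : ℝ) = 1 * 1 := by ring
        _ ≤ _ := mul_le_mul (le_max_right _ _) (le_max_right _ _) one_pos.le h1.le
  have h5 : Real.log (max ‖Z‖ 1) ≤ Real.log (max ‖x‖ 1 * max ((1 + ‖e‖) / ‖μ‖) 1) :=
    Real.log_le_log (lt_of_lt_of_le one_pos (le_max_right _ _)) h3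
  rw [Real.log_mul h1.ne' h2.ne'] at h5
  exact h5

private lemma cx2_dn (x Z e μ : ℂ) (hμ : μ ≠ 0) (hZ : Z = (x - e) / μ) :
    Real.log (max ‖x‖ 1) ≤ Real.log (max ‖Z‖ 1) + Real.log (‖μ‖ + ‖e‖ + 1) := by
  have hμa : 0 < ‖μ‖ := norm_pos_iff.2 hμ
  have h0 := norm_nonneg e
  have h1 : 0 < max ‖Z‖ 1 := lt_of_lt_of_le one_pos (le_max_right _ _)
  have h1' : 1 ≤ max ‖Z‖ 1 := le_max_right _ _
  have h2 : 0 < ‖μ‖ + ‖e‖ + 1 := by linarith
  have h3 : max ‖x‖ 1 ≤ max ‖Z‖ 1 * (‖μ‖ + ‖e‖ + 1) := by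
    apply max_le
    · have e1 : x = μ * Z + e := by
        rw [hZ]
        field_simp
        ring
      have e2 : ‖x‖ ≤ ‖μ‖ * ‖Z‖ + ‖e‖ := by
        rw [e1]
        refine (norm_add_le _ _).trans ?_
        rw [norm_mul]
      have e3 : ‖μ‖ * ‖Z‖ ≤ ‖μ‖ * max ‖Z‖ 1 := mul_le_mul_of_nonneg_left (le_max_left _ _) hμa.le
      have e4 : ‖e‖ * 1 ≤ ‖e‖ * max ‖Z‖ 1 := mul_le_mul_of_nonneg_left h1' h0
      linarith
    · nlinarith [mul_pos h1 hμa, mul_nonneg h1.le h0]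
  have h5 : Real.log (max ‖x‖ 1) ≤ Real.log (max ‖Z‖ 1 * (‖μ‖ + ‖e‖ + 1)) :=
    Real.log_le_log (lt_of_lt_of_le one_pos (le_max_right _ _)) h3
  rw [Real.log_mul h1.ne' h2.ne'] at h5
  exact h5

private lemma cx2_cmp1 (a r s : ℝ) (ha : 0 ≤ a) (hr : 0 < r) (hrs : r ≤ s) :
    |Real.log (max a r) - Real.log (max a s)| ≤ |Real.log r - Real.log s| := by
  have hs : 0 < s := by linarith
  have h1 : 0 < max a r := lt_of_lt_of_le hr (le_max_right _ _)
  have h2 : 0 < max a s := lt_of_lt_of_le hs (le_max_right _ _)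
  have h3 : Real.log (max a r) ≤ Real.log (max a s) :=
    Real.log_le_log h1 (max_le_max le_rfl hrs)
  have hq : 1 ≤ s / r := by
    rw [le_div_iff₀ hr]
    linarith
  have h4 : max a s ≤ max a r * (s / r) := by
    apply max_le
    · calc a = a * 1 := by ring
        _ ≤ max a r * (s / r) := mul_le_mul (le_max_left _ _) hq one_pos.le h1.le
    · calc s = r * (s / r) := by field_simp
        _ ≤ max a r * (s / r) := mul_le_mul_of_nonneg_right (le_max_right _ _) (by positivity)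
  have h5 : Real.log (max a s) ≤ Real.log (max a r * (s / r)) := Real.log_le_log h2 h4
  rw [Real.log_mul h1.ne' (by positivity), Real.log_div hs.ne' hr.ne'] at h5
  rw [abs_sub_comm, abs_of_nonneg (by linarith), abs_sub_comm]
  refine le_trans ?_ (le_abs_self _)
  linarith

private lemma cx2_cmp (a r s : ℝ) (ha : 0 ≤ a) (hr : 0 < r) (hs : 0 < s) :
    |Real.log (max a r) - Real.log (max a s)| ≤ |Real.log r - Real.log s| := by
  rcases le_total r s with h | h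
  · exact cx2_cmp1 a r s ha hr h
  · have := cx2_cmp1 a s r ha hs h
    rw [abs_sub_comm, abs_sub_comm (Real.log r)]
    exact this

private lemma cx2_QC {c d : ℝ} {f : ℕ → ℝ} (h : QC c f) (hcd : c ≤ d) : QC d f := by
  refine ⟨h.nonneg, ?_, ?_⟩
  · intro k l hk hl
    linarith [h.add k l hk hl]
  · intro k l hl hlk
    linarith [h.sub k l hl hlk]

theorem st_CX2 (hQCA : ST_QCA) (hCS2 : ST_CS2) (hC02 : ST_C02) (hCR : ST_CR) (hKSC : ST_KSC) :
    ST_CX2 := by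
  obtain ⟨C₁, hC₁0, hC₁⟩ := hCS2
  obtain ⟨J₀, hJ₀, hJ⟩ := hCR
  obtain ⟨C₃, hC₃0, hC₃⟩ := hC02 J₀
  obtain ⟨C₄, hC₄0, hC₄⟩ := hQCA C₃
  obtain ⟨C₅, hC₅0, hC₅⟩ := hQCA 3
  have l5 : 0 ≤ Real.log 5 := Real.log_nonneg (by norm_num)
  have l100 : 0 ≤ Real.log 100 := Real.log_nonneg (by norm_num)
  have lJ : 0 ≤ Real.log J₀ := Real.log_nonneg hJ₀
  refine ⟨C₁ + C₃ + C₄ + C₅ + Real.log J₀ + (Real.log 5 + Real.log 100), by positivity, ?_⟩
  intro A B hd x y hG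
  have hcu : ∀ k : ℕ, 1 ≤ k → cu A B (x k) = y k ^ 2 := by
    intro k hk
    rw [hG.curve k hk]
    unfold cu
    ring
  rcases le_or_gt ‖6912 * A ^ 3‖ (J₀ * ‖dsc A B‖) with hc | hc
  · -- bounded `j`
    obtain ⟨R, hR, hlR, hA, hB, hpot⟩ := hC₃ A B hd hc _ _ hG
    obtain ⟨u, hu⟩ : ∃ u : ℂ, u ^ 2 = ((1 / R : ℝ) : ℂ) := by
      refine ⟨((Real.sqrt (1 / R) : ℝ) : ℂ), ?_⟩
      rw [← Complex.ofReal_pow, Real.sq_sqrt (by positivity)]
    have hRc : ((1 / R : ℝ) : ℂ) ≠ 0 := by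
      rw [Complex.ofReal_ne_zero]
      positivity
    have hu0 : u ≠ 0 := by
      intro h0
      rw [h0] at hu
      apply hRc
      rw [← hu]
      simp
    have hnu : ‖u ^ 2‖ = 1 / R := by
      rw [hu, Complex.norm_real, Real.norm_eq_abs, abs_of_pos (by positivity)]
    have hG2 := hKSC ℂ A B u x y hu0 hG
    have hA2 : ‖u ^ 4 * A‖ ≤ C₃ := by
      have e1 : u ^ 4 = (u ^ 2) ^ 2 := by ring
      rw [e1, norm_mul, norm_pow, hnu, one_div, inv_pow]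
      rw [inv_mul_le_iff₀ (by positivity)]
      linarith
    have hB2 : ‖u ^ 6 * B‖ ≤ C₃ := by
      have e1 : u ^ 6 = (u ^ 2) ^ 3 := by ring
      rw [e1, norm_mul, norm_pow, hnu, one_div, inv_pow]
      rw [inv_mul_le_iff₀ (by positivity)]
      linarith
    have hQ := hC₄ 0 (u ^ 4 * A) (u ^ 6 * B) (by simpa using hC₃0) hA2 hB2 _ _ hG2
    refine ⟨fun k => Real.log (max ‖x k‖ R), fun k => Real.log (max ‖u ^ 2 * x k‖ 1), 0, ?_,
      ⟨|Real.log R - Real.log 1|, ?_⟩, cx2_QC hQ (by linarith), ?_⟩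
    · intro k hk
      have i1 := hpot k hk
      linarith
    · intro k _
      exact cx2_cmp _ _ _ (norm_nonneg _) hR one_pos
    · intro k hk
      have i0 : Real.log (max ‖u ^ 2 * x k‖ 1) = Real.log (max ‖x k‖ R) - Real.log R := by
        have e1 : max ‖x k‖ R = max ‖u ^ 2 * x k‖ 1 * R := by
          rw [norm_mul, hnu, max_mul_of_nonneg _ _ hR.le]
          congr 1
          · field_simp
          · ring
        have e2 : 0 < max ‖u ^ 2 * x k‖ 1 := lt_of_lt_of_le one_pos (le_max_right _ _)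
        rw [e1, Real.log_mul e2.ne' hR.ne']
        ring
      have i2 : max 0 (Real.log ‖6912 * A ^ 3 / dsc A B‖) ≤ Real.log J₀ := by
        apply max_le lJ
        rw [norm_div]
        have hdn : 0 < ‖dsc A B‖ := norm_pos_iff.2 hd
        have i3 : ‖6912 * A ^ 3‖ / ‖dsc A B‖ ≤ J₀ := by
          rw [div_le_iff₀ hdn]
          exact hc
        rcases eq_or_lt_of_le (div_nonneg (norm_nonneg (6912 * A ^ 3)) hdn.le) with h0 | h0
        · rw [← h0, Real.log_zero]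
          exact lJ
        · exact Real.log_le_log h0 i3
      have i4 : 0 ≤ max 0 (Real.log ‖6912 * A ^ 3 / dsc A B‖) := le_max_left _ _
      beta_reduce
      rw [mul_zero, cx2_B20, i0, ← hlR, abs_le]
      constructor <;> linarith
  · obtain ⟨e, μ, κ, hμ, he0, hμe, hκ, hκ0, he, hD⟩ := hJ A B hd hc
    obtain ⟨ν, hνμ⟩ : ∃ ν : ℂ, ν ^ 2 = μ ^ 3 := IsAlgClosed.exists_pow_nat_eq _ (by norm_num)
    have hν : ν ≠ 0 := by
      intro h0
      rw [h0] at hνμ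
      have : μ ^ 3 ≠ 0 := pow_ne_zero _ hμ
      apply this
      rw [← hνμ]; simp
    have hN := cx2_norm A B e μ ν _ _ hG hμ hν hνμ he0 hμe
    have hae : 3 * e / μ = -(2 + κ) := by
      field_simp
      linear_combination he
    rw [hae] at hN
    obtain ⟨U', τ, u1, u2⟩ := hC₁ κ hκ0 hκ _ _ hN
    have hμa : 0 < ‖μ‖ := norm_pos_iff.2 hμ
    have hκa : 0 < ‖κ‖ := norm_pos_iff.2 hκ0
    have lk : Real.log ‖κ‖ ≤ 0 := Real.log_nonpos hκa.le (by linarith)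
    have hQ := hC₅ (-(2 + κ)) 1 0 (by
      rw [norm_neg]
      have := norm_add_le (2 : ℂ) κ
      have h2 : ‖(2 : ℂ)‖ = 2 := by simp
      linarith) (by simp) (by simp) _ _ hN
    have hL1 : 0 ≤ Real.log (max ((1 + ‖e‖) / ‖μ‖) 1) := Real.log_nonneg (le_max_right _ _)
    have hL2 : 0 ≤ Real.log (‖μ‖ + ‖e‖ + 1) :=
      Real.log_nonneg (by linarith [norm_nonneg e])
    refine ⟨fun k => U' k + Real.log ‖μ‖, fun k => Real.log (max ‖(x k - e) / μ‖ 1), τ, ?_,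
      ⟨C₁ + (-Real.log ‖κ‖) * (1 / 3) + Real.log (max ((1 + ‖e‖) / ‖μ‖) 1) +
        Real.log (‖μ‖ + ‖e‖ + 1) + |Real.log ‖μ‖|, ?_⟩, cx2_QC hQ (by linarith), ?_⟩
    · intro k hk
      have i1 := u1 k hk
      have hy := hG.yne k hk
      have i4 : 4 * cu A B (x k) = μ ^ 3 * (4 * (y k / ν) ^ 2) := by
        rw [hcu k hk, div_pow, hνμ]
        field_simp
      have i5 : (4 * (y k / ν) ^ 2 : ℂ) ≠ 0 :=
        mul_ne_zero (by norm_num) (pow_ne_zero _ (div_ne_zero hy hν))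
      rw [i4, norm_mul, Real.log_mul (norm_ne_zero_iff.2 (pow_ne_zero _ hμ))
        (norm_ne_zero_iff.2 i5), norm_pow, Real.log_pow]
      push_cast
      beta_reduce at i1 ⊢
      rw [abs_le] at i1 ⊢
      constructor <;> linarith [i1.1, i1.2]
    · intro k hk
      have i1 := u2 k hk
      have i2 := cx2_up (x k) _ e μ hμ rfl
      have i3 := cx2_dn (x k) _ e μ hμ rfl
      have i4 := cx2_B2 (k * τ)
      have i5 : |(-Real.log ‖κ‖) * (B2 (k * τ) - 1 / 6)| ≤ (-Real.log ‖κ‖) * (1 / 3) := by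
        rw [abs_mul, abs_of_nonneg (by linarith : 0 ≤ -Real.log ‖κ‖)]
        apply mul_le_mul_of_nonneg_left _ (by linarith)
        rw [abs_le] at i4 ⊢
        constructor <;> linarith [i4.1, i4.2]
      have i6 := neg_abs_le (Real.log ‖μ‖)
      have i7 := le_abs_self (Real.log ‖μ‖)
      beta_reduce at i1 ⊢
      rw [abs_le] at i1 i5 ⊢
      constructor <;> linarith [i1.1, i1.2, i5.1, i5.2]
    · intro k hk
      have i1 := u2 k hk
      have i2 := cx2_main A e μ κ _ hμ hμe hκ hκ0 he hD (k * τ)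
      beta_reduce at i1 ⊢
      rw [abs_le] at i1 i2 ⊢
      constructor <;> linarith [i1.1, i1.2, i2.1, i2.2]

end Pool.Agent.Helper92.LV
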